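import Mathlib

/-!
# The lower bound `a_n ≥ ⌊log n⌋ - 1` fails for `n = 99577`

For `n = 99577` the equation `n = 2 p q a + a q + q + p` has exactly eight solutions with `a, q ≥ 1`
and `p ≥ 0`, so that `a_n = 9`, while `⌊log n⌋ = 11`.

In a solution two of the three unknowns are at most the third one and at most `316`; the finitely many
values of these two are checked.
-/

set_option autoImplicit false

namespace Pool.Agent.Results.MP_b2f6ce_nt.LogBoundFails

/-- The triples `(a, q, p)` with `a ≥ 1`, `q ≥ 1`, `p ≥ 0` and `n = 2 p q a + a q + q + p`. -/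
def T (n : ℕ) : Set (ℕ × ℕ × ℕ) :=
  {t | 1 ≤ t.1 ∧ 1 ≤ t.2.1 ∧ n = 2 * t.2.2 * t.2.1 * t.1 + t.1 * t.2.1 + t.2.1 + t.2.2}

/-- The number of these triples. -/
noncomputable def N (n : ℕ) : ℕ := (T n).ncard

/-- The eight solutions for `n = 99577`. -/
def L : Finset (ℕ × ℕ × ℕ) :=
  {(1, 24894, 1), (4, 314, 39), (9, 6, 913), (17, 30, 97), (307, 108, 1), (655, 8, 9),
    (1229, 27, 1), (99576, 1, 0)}

/-- `f` is true below a bound -/
def allB (f : ℕ → Bool) : ℕ → Bool
  | 0 => true
  | n + 1 => f n && allB f n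

theorem allB_spec {f : ℕ → Bool} : ∀ {n : ℕ}, allB f n = true → ∀ k < n, f k = true := by
  intro n
  induction n with
  | zero => intro _ k hk; omega
  | succ n ih =>
    intro h k hk
    simp only [allB, Bool.and_eq_true] at h
    rcases Nat.lt_succ_iff_lt_or_eq.1 hk with h1 | h1
    · exact ih h.2 k h1
    · exact h1 ▸ h.1

/-- the check for `p` and `q` -/
def f1 (p q : ℕ) : Bool :=
  match (99577 - q - p) % (q * (2 * p + 1)) with
  | 0 => decide (((99577 - q - p) / (q * (2 * p + 1)), q, p) ∈ L)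
  | _ + 1 => true

/-- the check for `p` and `a` -/
def f2 (p a : ℕ) : Bool :=
  match (99577 - p) % ((2 * p + 1) * a + 1) with
  | 0 => decide ((a, (99577 - p) / ((2 * p + 1) * a + 1), p) ∈ L)
  | _ + 1 => true

/-- the check for `q` and `a` -/
def f3 (q a : ℕ) : Bool :=
  match (99577 - q * (a + 1)) % (2 * q * a + 1) with
  | 0 => decide ((a, q, (99577 - q * (a + 1)) / (2 * q * a + 1)) ∈ L)
  | _ + 1 => true

theorem f1_spec {p q a : ℕ} (hq : 1 ≤ q) (h : 99577 = 2 * p * q * a + a * q + q + p)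
    (hf : f1 p q = true) : (a, q, p) ∈ L := by
  have e : 99577 - q - p = q * (2 * p + 1) * a := by
    have : q * (2 * p + 1) * a = 2 * p * q * a + a * q := by ring
    omega
  have hpos : 0 < q * (2 * p + 1) := by positivity
  unfold f1 at hf
  rw [e, Nat.mul_mod_right, Nat.mul_div_cancel_left _ hpos] at hf
  exact of_decide_eq_true hf

theorem f2_spec {p q a : ℕ} (h : 99577 = 2 * p * q * a + a * q + q + p)
    (hf : f2 p a = true) : (a, q, p) ∈ L := by
  have e : 99577 - p = ((2 * p + 1) * a + 1) * q := by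
    have : ((2 * p + 1) * a + 1) * q = 2 * p * q * a + a * q + q := by ring
    omega
  have hpos : 0 < (2 * p + 1) * a + 1 := by positivity
  unfold f2 at hf
  rw [e, Nat.mul_mod_right, Nat.mul_div_cancel_left _ hpos] at hf
  exact of_decide_eq_true hf

theorem f3_spec {p q a : ℕ} (h : 99577 = 2 * p * q * a + a * q + q + p)
    (hf : f3 q a = true) : (a, q, p) ∈ L := by
  have e : 99577 - q * (a + 1) = (2 * q * a + 1) * p := by
    have e1 : (2 * q * a + 1) * p = 2 * p * q * a + p := by ring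
    have e2 : q * (a + 1) = a * q + q := by ring
    omega
  have hpos : 0 < 2 * q * a + 1 := by positivity
  unfold f3 at hf
  rw [e, Nat.mul_mod_right, Nat.mul_div_cancel_left _ hpos] at hf
  exact of_decide_eq_true hf

set_option maxRecDepth 100000 in
theorem g1 : allB (fun p => allB (fun q => f1 p (q + 1)) 316) 37 = true := by decide +kernel

set_option maxRecDepth 100000 in
theorem g1' : allB (fun q => allB (fun p => f1 p (q + 1)) 224) 36 = true := by decide +kernel

set_option maxRecDepth 100000 in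
theorem g2 : allB (fun p => allB (fun a => f2 p (a + 1)) 316) 37 = true := by decide +kernel

set_option maxRecDepth 100000 in
theorem g2' : allB (fun a => allB (fun p => f2 p (a + 1)) 224) 36 = true := by decide +kernel

set_option maxRecDepth 100000 in
theorem g3 : allB (fun q => allB (fun a => f3 (q + 1) (a + 1)) 316) 36 = true := by decide +kernel

set_option maxRecDepth 100000 in
theorem g3' : allB (fun a => allB (fun q => f3 (q + 1) (a + 1)) 316) 36 = true := by
  decide +kernel

theorem mem_L {a q p : ℕ} (ha : 1 ≤ a) (hq : 1 ≤ q)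
    (h : 99577 = 2 * p * q * a + a * q + q + p) : (a, q, p) ∈ L := by
  obtain ⟨a', rfl⟩ : ∃ a', a = a' + 1 := ⟨a - 1, by omega⟩
  obtain ⟨q', rfl⟩ : ∃ q', q = q' + 1 := ⟨q - 1, by omega⟩
  have hmul : 2 * (p * ((q' + 1) * (a' + 1))) ≤ 99577 := by
    have : 2 * (p * ((q' + 1) * (a' + 1))) = 2 * p * (q' + 1) * (a' + 1) := by ring
    omega
  have hmul2 : (a' + 1) * (q' + 1) ≤ 99577 := by omega
  by_cases hp : p < 37
  · by_cases hq' : q' < 316
    · exact f1_spec hq h (allB_spec (allB_spec g1 p hp) q' hq')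
    · by_cases ha' : a' < 316
      · exact f2_spec h (allB_spec (allB_spec g2 p hp) a' ha')
      · exfalso
        have : 317 * 317 ≤ (a' + 1) * (q' + 1) := Nat.mul_le_mul (by omega) (by omega)
        omega
  by_cases hq' : q' < 36
  · by_cases hp2 : p < 224
    · exact f1_spec hq h (allB_spec (allB_spec g1' q' hq') p hp2)
    · by_cases ha' : a' < 316
      · exact f3_spec h (allB_spec (allB_spec g3 q' hq') a' ha')
      · exfalso
        have h5 : 224 * 317 ≤ p * (a' + 1) := Nat.mul_le_mul (by omega) (by omega)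
        have h6 : p * (a' + 1) ≤ p * ((q' + 1) * (a' + 1)) :=
          Nat.mul_le_mul_left _ (Nat.le_mul_of_pos_left _ (by omega))
        omega
  by_cases ha' : a' < 36
  · by_cases hp2 : p < 224
    · exact f2_spec h (allB_spec (allB_spec g2' a' ha') p hp2)
    · by_cases hq2 : q' < 316
      · exact f3_spec h (allB_spec (allB_spec g3' a' ha') q' hq2)
      · exfalso
        have h5 : 224 * 317 ≤ p * (q' + 1) := Nat.mul_le_mul (by omega) (by omega)
        have h6 : p * (q' + 1) ≤ p * ((q' + 1) * (a' + 1)) :=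
          Nat.mul_le_mul_left _ (Nat.le_mul_of_pos_right _ (by omega))
        omega
  · exfalso
    have h5 : 37 * (37 * 37) ≤ p * ((q' + 1) * (a' + 1)) :=
      Nat.mul_le_mul (by omega) (Nat.mul_le_mul (by omega) (by omega))
    omega

theorem T_eq : T 99577 = (L : Set (ℕ × ℕ × ℕ)) := by
  ext ⟨a, q, p⟩
  constructor
  · rintro ⟨ha, hq, h⟩
    exact mem_L ha hq h
  · intro h
    have h2 : ∀ t ∈ L, 1 ≤ t.1 ∧ 1 ≤ t.2.1 ∧
        99577 = 2 * t.2.2 * t.2.1 * t.1 + t.1 * t.2.1 + t.2.1 + t.2.2 := by decide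
    exact h2 _ h

/-- **Main theorem.** For `n = 99577` the set of the triples is finite with exactly eight elements,
so `a_n = N n + 1 = 9`, and `⌊log n⌋ = 11`, so that `a_n ≤ ⌊log n⌋ - 2`. -/
theorem result : ∃ n : ℕ, n = 99577 ∧ (T n).Finite ∧ N n + 1 = 9 ∧ ⌊Real.log n⌋ = 11 ∧
    ((N n + 1 : ℕ) : ℤ) ≤ ⌊Real.log n⌋ - 2 := by
  have hN : N 99577 + 1 = 9 := by
    unfold N
    rw [T_eq, Set.ncard_coe_finset]
    decide
  have hlog : ⌊Real.log ((99577 : ℕ) : ℝ)⌋ = 11 := by
    rw [Int.floor_eq_iff]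
    have h1 := Real.exp_one_lt_d9
    have h2 := Real.exp_one_gt_d9
    have h0 : (0 : ℝ) < Real.exp 1 := Real.exp_pos 1
    constructor
    · rw [Real.le_log_iff_exp_le (by norm_num)]
      have e : Real.exp (((11 : ℤ) : ℝ)) = Real.exp 1 ^ 11 := by
        rw [← Real.exp_nat_mul]
        norm_num
      rw [e]
      calc Real.exp 1 ^ 11 ≤ (2.7182818286 : ℝ) ^ 11 := pow_le_pow_left₀ h0.le h1.le 11
        _ ≤ _ := by norm_num
    · rw [Real.log_lt_iff_lt_exp (by norm_num)]
      have e : Real.exp (((11 : ℤ) : ℝ) + 1) = Real.exp 1 ^ 12 := by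
        rw [← Real.exp_nat_mul]
        norm_num
      rw [e]
      calc ((99577 : ℕ) : ℝ) < (2.7182818283 : ℝ) ^ 12 := by norm_num
        _ ≤ Real.exp 1 ^ 12 := pow_le_pow_left₀ (by norm_num) h2.le 12
  refine ⟨99577, rfl, ?_, hN, hlog, ?_⟩
  · rw [T_eq]
    exact L.finite_toSet
  · rw [hN, hlog]
    norm_num

end Pool.Agent.Results.MP_b2f6ce_nt.LogBoundFails
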